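import Pool.Agent.Helper57.QZ.Stmts

set_option autoImplicit false

namespace Pool.Agent.Helper14.QZ

open MeasureTheory Set Filter Topology Pool.Agent.Helper57.QZ

theorem I0_pos (x : ℝ) : 0 < I0 x := by
  unfold I0
  have hb : ∀ φ : ℝ, Real.exp (-|x|) ≤ Real.exp (x * Real.cos φ) := by
    intro φ
    apply Real.exp_le_exp.2
    have h1 : |x * Real.cos φ| ≤ |x| := by
      rw [abs_mul]
      exact mul_le_of_le_one_right (abs_nonneg _) (Real.abs_cos_le_one φ)
    have := neg_abs_le (x * Real.cos φ)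
    linarith
  have hu : ∀ φ : ℝ, Real.exp (x * Real.cos φ) ≤ Real.exp |x| := by
    intro φ
    apply Real.exp_le_exp.2
    have h1 : |x * Real.cos φ| ≤ |x| := by
      rw [abs_mul]
      exact mul_le_of_le_one_right (abs_nonneg _) (Real.abs_cos_le_one φ)
    exact (le_abs_self _).trans h1
  have hi : Integrable (fun φ : ℝ => Real.exp (x * Real.cos φ)) circ := by
    refine Integrable.of_bound (C := Real.exp |x|) ?_ ?_
    · exact (by fun_prop : Continuous fun φ : ℝ => Real.exp (x * Real.cos φ)).aestronglyMeasurable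
    · refine Filter.Eventually.of_forall fun φ => ?_
      rw [Real.norm_eq_abs, abs_of_pos (Real.exp_pos _)]
      exact hu φ
  have h2 : ∫ _ : ℝ, Real.exp (-|x|) ∂circ ≤ ∫ φ, Real.exp (x * Real.cos φ) ∂circ :=
    integral_mono (integrable_const _) hi hb
  have h3 : ∫ _ : ℝ, Real.exp (-|x|) ∂circ = Real.exp (-|x|) := by simp
  rw [h3] at h2
  exact (Real.exp_pos _).trans_le h2

theorem exp_ell (x : ℝ) : Real.exp (ell x) = I0 x := Real.exp_log (I0_pos x)

theorem st_PR0 : ST_PR0 := by
  intro y c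
  have h1 : ∀ φ : Pr y → ℝ, Real.exp (∑ p : Pr y, c p * Real.cos (φ p))
      = ∏ p : Pr y, Real.exp (c p * Real.cos (φ p)) := fun φ => Real.exp_sum _ _
  simp only [h1]
  unfold tor
  have h2 := integral_fintype_prod_eq_prod (𝕜 := ℝ) (μ := fun _ : Pr y => circ)
    (fun (p : Pr y) (t : ℝ) => Real.exp (c p * Real.cos t))
  rw [h2, Real.exp_sum]
  refine Finset.prod_congr rfl fun p _ => ?_
  rw [exp_ell]
  rfl

theorem st_pr0 : ST_PR0 := st_PR0

theorem us_of (h0 : ST_PR0) : ST_US := by
  intro y σ s h hs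
  set S : (Pr y → ℝ) → ℝ := Sy y σ with hS
  have hSc : Continuous S := by
    rw [hS]
    unfold Sy
    fun_prop
  have hSb : ∀ φ, |S φ| ≤ ∑ p : Pr y, |aa σ p| := by
    intro φ
    rw [hS]
    unfold Sy
    refine (Finset.abs_sum_le_sum_abs _ _).trans (Finset.sum_le_sum fun p _ => ?_)
    rw [abs_mul]
    exact mul_le_of_le_one_right (abs_nonneg _) (Real.abs_cos_le_one _)
  have hi : Integrable (fun φ => Real.exp (s * S φ)) (tor y) := by
    refine Integrable.of_bound (C := Real.exp (s * ∑ p : Pr y, |aa σ p|)) ?_ ?_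
    · exact (by fun_prop : Continuous fun φ => Real.exp (s * S φ)).aestronglyMeasurable
    · refine Filter.Eventually.of_forall fun φ => ?_
      rw [Real.norm_eq_abs, abs_of_pos (Real.exp_pos _)]
      apply Real.exp_le_exp.2
      exact mul_le_mul_of_nonneg_left ((le_abs_self _).trans (hSb φ)) hs
  have hI : ∫ φ, Real.exp (s * S φ) ∂tor y = Real.exp (∑ p : Pr y, ell (s * aa σ p)) := by
    rw [← h0 y (fun p => s * aa σ p)]
    refine integral_congr_ae (Filter.Eventually.of_forall fun φ => ?_)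
    show Real.exp (s * Sy y σ φ) = _
    unfold Sy
    rw [Finset.mul_sum]
    congr 1
    exact Finset.sum_congr rfl fun p _ => by ring
  have hM := mul_meas_ge_le_integral_of_nonneg (μ := tor y)
    (f := fun φ => Real.exp (s * S φ)) (Filter.Eventually.of_forall fun φ => (Real.exp_pos _).le)
    hi (Real.exp (s * (muy y σ s + h)))
  rw [hI] at hM
  have hsub : (tor y).real {φ | muy y σ s + h ≤ Sy y σ φ}
      ≤ (tor y).real {φ | Real.exp (s * (muy y σ s + h)) ≤ Real.exp (s * S φ)} := by
    refine measureReal_mono ?_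
    intro φ hφ
    exact Real.exp_le_exp.2 (mul_le_mul_of_nonneg_left hφ hs)
  have hL : -(Ly y σ s) - s * h = (∑ p : Pr y, ell (s * aa σ p)) - s * (muy y σ s + h) := by
    unfold Ly muy
    rw [Finset.sum_sub_distrib, mul_add, Finset.mul_sum]
    have : ∑ p : Pr y, s * aa σ p * rr (s * aa σ p) = ∑ p : Pr y, s * (aa σ p * rr (s * aa σ p)) :=
      Finset.sum_congr rfl fun p _ => by ring
    rw [this]
    ring
  refine hsub.trans ?_
  rw [hL, Real.exp_sub, le_div_iff₀ (Real.exp_pos _), mul_comm]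
  exact hM

end Pool.Agent.Helper14.QZ
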